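import Mathlib

/-!
# Irrational canonical heights in characteristic `p` (MP_2ab887_nt): the forms
-/

set_option autoImplicit false

open Polynomial

namespace Pool.Agent.Lib.MP_2ab887_nt.P

/-- `x^p - x y^(p-1)` -/
def HH {R : Type*} [CommRing R] (p : ℕ) (x y : R) : R := x ^ p - x * y ^ (p - 1)

/-- `y^(p-1) - (x - a y)^(p-1)` -/
def LL {R : Type*} [CommRing R] (p a : ℕ) (x y : R) : R :=
  y ^ (p - 1) - (x - (a : R) * y) ^ (p - 1)

/-- the form of degree `p^2` -/
def BB {R : Type*} [CommRing R] (p : ℕ) (t x y : R) : R :=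
  HH p x y ^ p + ∑ a ∈ Finset.range p, t ^ a * LL p a x y ^ p * y ^ p

/-- the first form of degree `p^2 + p` -/
def FF {R : Type*} [CommRing R] (p : ℕ) (t x y : R) : R :=
  HH p x y * (BB p t x y + t ^ (2 * p) * y ^ (p * p))

/-- the second form of degree `p^2 + p` -/
def GG {R : Type*} [CommRing R] (p : ℕ) (t x y : R) : R := t * y ^ p * BB p t x y

section Map

variable {R S : Type*} [CommRing R] [CommRing S] (f : R →+* S) (p : ℕ)

theorem map_HH (x y : R) : f (HH p x y) = HH p (f x) (f y) := by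
  simp only [HH, map_sub, map_mul, map_pow]

theorem map_LL (a : ℕ) (x y : R) : f (LL p a x y) = LL p a (f x) (f y) := by
  simp only [LL, map_sub, map_mul, map_pow, map_natCast]

theorem map_BB (t x y : R) : f (BB p t x y) = BB p (f t) (f x) (f y) := by
  simp only [BB, map_add, map_mul, map_pow, map_sum, map_HH, map_LL]

theorem map_FF (t x y : R) : f (FF p t x y) = FF p (f t) (f x) (f y) := by
  simp only [FF, map_add, map_mul, map_pow, map_HH, map_BB]

theorem map_GG (t x y : R) : f (GG p t x y) = GG p (f t) (f x) (f y) := by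
  simp only [GG, map_mul, map_pow, map_BB]

end Map

section Homog

variable {R : Type*} [CommRing R] {p : ℕ} (hp : p ≠ 0)

include hp

theorem HH_mul (c x y : R) : HH p (c * x) (c * y) = c ^ p * HH p x y := by
  obtain ⟨q, rfl⟩ := Nat.exists_eq_succ_of_ne_zero hp
  simp only [HH, Nat.succ_eq_add_one, Nat.add_sub_cancel, mul_pow]
  ring

omit hp in
theorem LL_mul (a : ℕ) (c x y : R) : LL p a (c * x) (c * y) = c ^ (p - 1) * LL p a x y := by
  simp only [LL]
  rw [show c * x - (a : R) * (c * y) = c * (x - a * y) by ring, mul_pow, mul_pow]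
  ring

theorem BB_mul (t c x y : R) : BB p t (c * x) (c * y) = c ^ (p * p) * BB p t x y := by
  simp only [BB, HH_mul hp, LL_mul, mul_pow, ← pow_mul, mul_add, Finset.mul_sum]
  congr 1
  refine Finset.sum_congr rfl fun a _ => ?_
  have h : c ^ (p * p) = c ^ ((p - 1) * p) * c ^ p := by
    rw [← pow_add]
    congr 1
    obtain ⟨q, rfl⟩ := Nat.exists_eq_succ_of_ne_zero hp
    simp only [Nat.succ_eq_add_one, Nat.add_sub_cancel]
    ring
  rw [h]
  ring

/-- the form `BB` takes proportional values at proportional points -/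
theorem dvd_cross (t x y x' y' : R) :
    (x * y' - x' * y) ∣ y ^ (p * p) * BB p t x' y' - y' ^ (p * p) * BB p t x y := by
  rw [← Ideal.mem_span_singleton, ← Ideal.Quotient.eq_zero_iff_mem, map_sub, ← BB_mul hp,
    ← BB_mul hp, map_BB, map_BB, sub_eq_zero]
  have h1 : Ideal.Quotient.mk (Ideal.span {x * y' - x' * y}) (y * x') =
      Ideal.Quotient.mk (Ideal.span {x * y' - x' * y}) (y' * x) := by
    rw [← sub_eq_zero, ← map_sub, Ideal.Quotient.eq_zero_iff_mem, Ideal.mem_span_singleton]
    exact ⟨-1, by ring⟩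
  rw [h1, mul_comm y y']

end Homog

section Char

variable {R : Type*} [CommRing R] {p : ℕ} [Fact p.Prime] [CharP R p]

theorem natCast_pow_char (a : ℕ) : ((a : R)) ^ p = a := by
  haveI : ExpChar R p := ExpChar.prime Fact.out
  rw [← frobenius_def]
  exact map_natCast (frobenius R p) a

theorem sub_pow_pred {a b : ℕ} (ha : a < p) (hb : b < p) (hab : a ≠ b) :
    ((b : R) - a) ^ (p - 1) = 1 := by
  have h1 : ((b : ZMod p) - a) ^ (p - 1) = 1 := by
    refine ZMod.pow_card_sub_one_eq_one ?_
    rw [sub_ne_zero]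
    intro h
    rw [ZMod.natCast_eq_natCast_iff', Nat.mod_eq_of_lt ha, Nat.mod_eq_of_lt hb] at h
    exact hab h.symm
  have h2 := congrArg (ZMod.castHom (dvd_refl p) R) h1
  simpa using h2

theorem HH_nat (b : ℕ) (y : R) : HH p ((b : R) * y) y = 0 := by
  have hp : p ≠ 0 := (Fact.out : p.Prime).ne_zero
  obtain ⟨q, hq⟩ := Nat.exists_eq_succ_of_ne_zero hp
  unfold HH
  rw [mul_pow, natCast_pow_char, mul_assoc, mul_comm y, ← pow_succ,
    show p - 1 + 1 = p by omega, sub_self]

theorem LL_nat_ne {a b : ℕ} (ha : a < p) (hb : b < p) (hab : a ≠ b) (y : R) :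
    LL p a ((b : R) * y) y = 0 := by
  unfold LL
  rw [← sub_mul, mul_pow, sub_pow_pred ha hb hab, one_mul, sub_self]

theorem LL_nat_self (b : ℕ) (y : R) : LL p b ((b : R) * y) y = y ^ (p - 1) := by
  have hp : 2 ≤ p := (Fact.out : p.Prime).two_le
  unfold LL
  rw [sub_self, zero_pow (by omega), sub_zero]

theorem BB_nat {b : ℕ} (hb : b < p) (t y : R) :
    BB p t ((b : R) * y) y = t ^ b * y ^ (p * p) := by
  have hp : 2 ≤ p := (Fact.out : p.Prime).two_le
  unfold BB
  rw [HH_nat, zero_pow (by omega), zero_add, Finset.sum_eq_single b]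
  · rw [LL_nat_self, ← pow_mul, mul_assoc, ← pow_add]
    congr 2
    obtain ⟨q, rfl⟩ : ∃ q, p = q + 1 := ⟨p - 1, by omega⟩
    simp only [Nat.add_sub_cancel]
    ring
  · intro a ha hab
    rw [LL_nat_ne (Finset.mem_range.1 ha) hb hab, zero_pow (by omega)]
    ring
  · intro h
    exact absurd (Finset.mem_range.2 hb) h

/-- the difference of the products -/
theorem HH_cross (x y x' y' : R) :
    HH p x y * y' ^ p - HH p x' y' * y ^ p =
      (x * y' - x' * y) * ((x * y' - x' * y) ^ (p - 1) - (y * y') ^ (p - 1)) := by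
  have hp : 2 ≤ p := (Fact.out : p.Prime).two_le
  haveI : ExpChar R p := ExpChar.prime Fact.out
  have h1 : (x * y' - x' * y) ^ p = x ^ p * y' ^ p - x' ^ p * y ^ p := by
    rw [sub_pow_expChar, mul_pow, mul_pow]
  have h2 : (x * y' - x' * y) * (x * y' - x' * y) ^ (p - 1) = (x * y' - x' * y) ^ p := by
    rw [← pow_succ', show p - 1 + 1 = p by omega]
  have h3 : ∀ z : R, z ^ p = z * z ^ (p - 1) := by
    intro z
    rw [← pow_succ', show p - 1 + 1 = p by omega]
  rw [mul_sub, h2, h1]
  unfold HH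
  rw [mul_pow y y', h3 y, h3 y']
  ring

/-- the cross difference of the images of two points -/
theorem cross (t x y x' y' : R) : ∃ C : R,
    FF p t x y * GG p t x' y' - FF p t x' y' * GG p t x y =
      t * (x * y' - x' * y) *
        (BB p t x y * BB p t x' y' * ((x * y' - x' * y) ^ (p - 1) - (y * y') ^ (p - 1)) +
          t ^ (2 * p) * C) := by
  have hp : p ≠ 0 := (Fact.out : p.Prime).ne_zero
  obtain ⟨D, hD⟩ := dvd_cross hp t x y x' y'
  have h1 := HH_cross (p := p) x y x' y'
  refine ⟨((x * y' - x' * y) ^ (p - 1) - (y * y') ^ (p - 1)) * (y ^ (p * p) * BB p t x' y') +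
    HH p x' y' * y ^ p * D, ?_⟩
  have h2 : FF p t x y * GG p t x' y' - FF p t x' y' * GG p t x y =
      t * (BB p t x y * BB p t x' y' * (HH p x y * y' ^ p - HH p x' y' * y ^ p) +
        t ^ (2 * p) * ((HH p x y * y' ^ p - HH p x' y' * y ^ p) * (y ^ (p * p) * BB p t x' y') +
          HH p x' y' * y ^ p * (y ^ (p * p) * BB p t x' y' - y' ^ (p * p) * BB p t x y))) := by
    simp only [FF, GG]
    ring
  rw [h2, h1, hD]
  ring

end Char

section Field

variable {L : Type*} [Field L] {p : ℕ} [Fact p.Prime] [CharP L p]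

theorem prime_field {x : L} (h : x ^ p = x) : ∃ j < p, x = (j : L) := by
  have h1 := (Subfield.mem_bot_iff_pow_eq_self L p).2 h
  rw [← ZMod.fieldRange_castHom_eq_bot p, RingHom.mem_fieldRange] at h1
  obtain ⟨z, hz⟩ := h1
  refine ⟨z.val, ZMod.val_lt z, ?_⟩
  rw [← hz]
  simp

theorem no_common_zero {t x y : L} (ht : t ≠ 0) (h1 : FF p t x y = 0) (h2 : GG p t x y = 0) :
    x = 0 ∧ y = 0 := by
  have hp : 2 ≤ p := (Fact.out : p.Prime).two_le
  by_cases hy : y = 0
  · subst hy
    refine ⟨?_, rfl⟩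
    have e1 : HH p x 0 = x ^ p := by
      unfold HH
      rw [zero_pow (by omega), mul_zero, sub_zero]
    have e2 : BB p t x 0 = (x ^ p) ^ p := by
      unfold BB
      rw [e1, Finset.sum_eq_zero, add_zero]
      intro a _
      rw [zero_pow (by omega), mul_zero]
    unfold FF at h1
    rw [e1, e2, zero_pow (mul_ne_zero (by omega) (by omega)), mul_zero, add_zero] at h1
    rcases mul_eq_zero.1 h1 with h | h
    · exact pow_eq_zero_iff (by omega) |>.1 h
    · exact pow_eq_zero_iff (by omega) |>.1 (pow_eq_zero_iff (by omega) |>.1 h)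
  · exfalso
    have hB : BB p t x y = 0 := by
      unfold GG at h2
      rcases mul_eq_zero.1 h2 with h | h
      · rcases mul_eq_zero.1 h with h | h
        · exact absurd h ht
        · exact absurd (pow_eq_zero_iff (by omega) |>.1 h) hy
      · exact h
    have hH : HH p x y = 0 := by
      unfold FF at h1
      rw [hB, zero_add] at h1
      rcases mul_eq_zero.1 h1 with h | h
      · exact h
      · exact absurd h (mul_ne_zero (pow_ne_zero _ ht) (pow_ne_zero _ hy))
    have hx : (x / y) ^ p = x / y := by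
      unfold HH at hH
      rw [div_pow, div_eq_div_iff (pow_ne_zero _ hy) hy]
      have h3 : y ^ p = y ^ (p - 1) * y := by
        rw [← pow_succ, show p - 1 + 1 = p by omega]
      rw [h3, sub_eq_zero.1 hH]
      ring
    obtain ⟨j, hj, he⟩ := prime_field hx
    have hxy : x = (j : L) * y := by
      rw [← he, div_mul_cancel₀ _ hy]
    rw [hxy, BB_nat hj] at hB
    exact mul_ne_zero (pow_ne_zero _ ht) (pow_ne_zero _ hy) hB

end Field

end Pool.Agent.Lib.MP_2ab887_nt.P
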