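import Pool.Agent.Lib.MP_2ab887_nt.P.Main

/-!
# The field of rational functions over the prime field (MP_2ab887_nt)
-/

set_option autoImplicit false

open Polynomial

namespace Pool.Agent.Lib.MP_2ab887_nt.P

variable {K : Type*} [Field K] {p : ℕ} [Fact p.Prime] [CharP K p]

theorem sig_ne_zero {q : K[X]} (h : q ≠ 0) : sig K p q ≠ 0 := by
  intro h0
  apply h
  ext i
  have h1 : (sig K p q).coeff i = 0 := by rw [h0, coeff_zero]
  rw [sig_coeff] at h1
  rw [coeff_zero]
  exact pow_eq_zero_iff (Fact.out : p.Prime).ne_zero |>.1 h1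

/-- the elements of the subfield generated by `t` are quotients of polynomials over the prime
field -/
theorem exists_of_mem {z : RatFunc K} (h : z ∈ Subfield.closure {(RatFunc.X : RatFunc K)}) :
    ∃ a b : K[X], sig K p a = a ∧ sig K p b = b ∧ b ≠ 0 ∧
      z * algebraMap K[X] (RatFunc K) b = algebraMap K[X] (RatFunc K) a := by
  have hinj : Function.Injective (algebraMap K[X] (RatFunc K)) := IsFractionRing.injective _ _
  induction h using Subfield.closure_induction with
  | mem x hx =>
    have hx' : x = RatFunc.X := hx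
    refine ⟨X, 1, sig_X, map_one _, one_ne_zero, ?_⟩
    rw [hx', map_one, mul_one, RatFunc.algebraMap_X]
  | one => exact ⟨1, 1, map_one _, map_one _, one_ne_zero, by rw [map_one, mul_one]⟩
  | add x y _ _ hx hy =>
    obtain ⟨a, b, ha, hb, hb0, h1⟩ := hx
    obtain ⟨a', b', ha', hb', hb0', h2⟩ := hy
    refine ⟨a * b' + a' * b, b * b', ?_, ?_, mul_ne_zero hb0 hb0', ?_⟩
    · rw [map_add, map_mul, map_mul, ha, hb, ha', hb']
    · rw [map_mul, hb, hb']
    · rw [map_add, map_mul, map_mul, map_mul, ← h1, ← h2]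
      ring
  | neg x _ hx =>
    obtain ⟨a, b, ha, hb, hb0, h1⟩ := hx
    refine ⟨-a, b, by rw [map_neg, ha], hb, hb0, ?_⟩
    rw [map_neg, ← h1, neg_mul]
  | inv x _ hx =>
    obtain ⟨a, b, ha, hb, hb0, h1⟩ := hx
    by_cases hx0 : x = 0
    · refine ⟨0, 1, map_zero _, map_one _, one_ne_zero, ?_⟩
      rw [hx0, inv_zero, zero_mul, map_zero]
    · have hb1 : algebraMap K[X] (RatFunc K) b ≠ 0 := fun h =>
        hb0 (hinj (h.trans (map_zero _).symm))
      have ha0 : a ≠ 0 := by
        rintro rfl
        rw [map_zero] at h1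
        exact (mul_ne_zero hx0 hb1) h1
      refine ⟨b, a, hb, ha, ha0, ?_⟩
      rw [← h1, ← mul_assoc, inv_mul_cancel₀ hx0, one_mul]
  | mul x y _ _ hx hy =>
    obtain ⟨a, b, ha, hb, hb0, h1⟩ := hx
    obtain ⟨a', b', ha', hb', hb0', h2⟩ := hy
    refine ⟨a * a', b * b', by rw [map_mul, ha, ha'], by rw [map_mul, hb, hb'],
      mul_ne_zero hb0 hb0', ?_⟩
    rw [map_mul, map_mul, ← h1, ← h2]
    ring

/-- the elements of the subfield generated by `t` -/
theorem mem_closure_iff {A B : K[X]} (hc : IsCoprime A B) (h0 : B.eval 0 = 1) :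
    algebraMap K[X] (RatFunc K) A / algebraMap K[X] (RatFunc K) B ∈
      Subfield.closure {(RatFunc.X : RatFunc K)} ↔ sig K p A = A ∧ sig K p B = B := by
  have hinj : Function.Injective (algebraMap K[X] (RatFunc K)) := IsFractionRing.injective _ _
  have hB0 : B ≠ 0 := by
    rintro rfl
    rw [eval_zero] at h0
    exact zero_ne_one h0
  have hB1 : algebraMap K[X] (RatFunc K) B ≠ 0 := fun h => hB0 (hinj (h.trans (map_zero _).symm))
  constructor
  · intro h
    obtain ⟨a, b, ha, hb, hb0, h1⟩ := exists_of_mem (p := p) h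
    -- `A b = a B`
    have h2 : A * b = a * B := by
      apply hinj
      rw [map_mul, map_mul, ← h1]
      field_simp
    obtain ⟨u, hu⟩ : B ∣ b := hc.symm.dvd_of_dvd_mul_left (h2 ▸ dvd_mul_left B a)
    have hu0 : u ≠ 0 := by
      rintro rfl
      rw [mul_zero] at hu
      exact hb0 hu
    have h3 : a = A * u := by
      have h4 : a * B = (A * u) * B := by rw [← h2, hu]; ring
      exact mul_right_cancel₀ hB0 h4
    have hs : sig K p u ≠ 0 := sig_ne_zero hu0
    have h5 : sig K p A * sig K p u = A * u := by rw [← map_mul, ← h3, ha]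
    have h6 : sig K p B * sig K p u = B * u := by rw [← map_mul, ← hu, hb]
    have h7 : A * sig K p B = sig K p A * B := by
      have h8 : (A * sig K p B) * (u * sig K p u) = (sig K p A * B) * (u * sig K p u) := by
        calc (A * sig K p B) * (u * sig K p u) = (A * u) * (sig K p B * sig K p u) := by ring
          _ = (sig K p A * sig K p u) * (B * u) := by rw [h5, h6]
          _ = _ := by ring
      exact mul_right_cancel₀ (mul_ne_zero hu0 hs) h8
    have h9 : (sig K p B).natDegree ≤ B.natDegree := by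
      refine natDegree_le_iff_coeff_eq_zero.2 fun N hN => ?_
      rw [sig_coeff, coeff_eq_zero_of_natDegree_lt hN, zero_pow (Fact.out : p.Prime).ne_zero]
    exact eq_of_cross hc h0 (by rw [sig_eval, h0, one_pow]) h9 h7
  · rintro ⟨h1, h2⟩
    have hX : (RatFunc.X : RatFunc K) ∈ Subfield.closure {(RatFunc.X : RatFunc K)} :=
      Subfield.subset_closure (Set.mem_singleton _)
    have key : ∀ q : K[X], sig K p q = q → algebraMap K[X] (RatFunc K) q ∈
        Subfield.closure {(RatFunc.X : RatFunc K)} := by
      intro q hq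
      rw [q.as_sum_range_C_mul_X_pow, map_sum]
      refine sum_mem fun i _ => ?_
      have h3 : q.coeff i ^ p = q.coeff i := by rw [← sig_coeff, hq]
      obtain ⟨j, -, hj⟩ := prime_field h3
      rw [hj, map_mul, map_pow, RatFunc.algebraMap_X, map_natCast, map_natCast]
      have h4 : ((j : ℕ) : RatFunc K) ∈ Subfield.closure {(RatFunc.X : RatFunc K)} :=
        natCast_mem _ j
      exact mul_mem h4 (pow_mem hX i)
    exact div_mem (key A h1) (key B h2)

end Pool.Agent.Lib.MP_2ab887_nt.P
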