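import Pool.Agent.Lib.MP_2ab887_nt.P.Orb

/-!
# Irrational canonical heights in characteristic `p` (MP_2ab887_nt): degrees
-/

set_option autoImplicit false

open Polynomial

namespace Pool.Agent.Lib.MP_2ab887_nt.P

variable {K : Type*} [Field K] {p : ℕ} [Fact p.Prime] [CharP K p]

/-- the numerator has a larger degree than the denominator -/
def Deg (P : K[X] × K[X]) : Prop :=
  P.1 ≠ 0 ∧ P.2 ≠ 0 ∧ P.2.natDegree + 2 ≤ P.1.natDegree

omit [CharP K p] in
theorem natDegree_HH {A B : K[X]} (h : B.natDegree + 2 ≤ A.natDegree) :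
    (HH p A B).natDegree = p * A.natDegree := by
  have hp : 2 ≤ p := (Fact.out : p.Prime).two_le
  unfold HH
  rw [natDegree_sub_eq_left_of_natDegree_lt, natDegree_pow]
  rw [natDegree_pow]
  refine lt_of_le_of_lt natDegree_mul_le ?_
  rw [natDegree_pow]
  obtain ⟨q, rfl⟩ : ∃ q, p = q + 1 := ⟨p - 1, by omega⟩
  have hq : 1 ≤ q := by omega
  simp only [Nat.add_sub_cancel]
  nlinarith

omit [Fact p.Prime] [CharP K p] in
theorem natDegree_LL {A B : K[X]} (a : ℕ) (h : B.natDegree + 2 ≤ A.natDegree) :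
    (LL p a A B).natDegree ≤ (p - 1) * A.natDegree := by
  unfold LL
  refine (natDegree_sub_le _ _).trans (max_le ?_ ?_)
  · rw [natDegree_pow]
    exact Nat.mul_le_mul_left _ (by omega)
  · rw [natDegree_pow]
    refine Nat.mul_le_mul_left _ ?_
    refine (natDegree_sub_le _ _).trans (max_le le_rfl ?_)
    refine natDegree_mul_le.trans ?_
    rw [natDegree_natCast]
    omega

omit [CharP K p] in
theorem natDegree_BB {A B : K[X]} (h : B.natDegree + 2 ≤ A.natDegree) :
    (BB p X A B).natDegree = p * (p * A.natDegree) := by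
  have hp : 2 ≤ p := (Fact.out : p.Prime).two_le
  unfold BB
  rw [natDegree_add_eq_left_of_natDegree_lt, natDegree_pow, natDegree_HH h]
  rw [natDegree_pow, natDegree_HH h]
  refine lt_of_le_of_lt (natDegree_sum_le_of_forall_le (n := p * (p * A.natDegree) - 1) _ _ ?_) ?_
  · intro a ha
    have ha' := Finset.mem_range.1 ha
    refine natDegree_mul_le.trans ?_
    have h1 : (X ^ a * LL p a A B ^ p : K[X]).natDegree ≤ a + p * ((p - 1) * A.natDegree) := by
      refine natDegree_mul_le.trans ?_
      rw [natDegree_X_pow, natDegree_pow]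
      exact Nat.add_le_add_left (Nat.mul_le_mul_left _ (natDegree_LL a h)) _
    rw [natDegree_pow]
    have h2 : p * (p * A.natDegree) = p * ((p - 1) * A.natDegree) + p * A.natDegree := by
      obtain ⟨q, rfl⟩ : ∃ q, p = q + 1 := ⟨p - 1, by omega⟩
      simp only [Nat.add_sub_cancel]
      ring
    have h3 : p * B.natDegree + 2 * p ≤ p * A.natDegree := by nlinarith
    omega
  · have : 0 < p * (p * A.natDegree) := by
      have : 0 < A.natDegree := by omega
      positivity
    omega

omit [CharP K p] in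
theorem natDegree_FF {A B : K[X]} (h : B.natDegree + 2 ≤ A.natDegree) :
    (FF p X A B).natDegree = (p * p + p) * A.natDegree := by
  have hp : 2 ≤ p := (Fact.out : p.Prime).two_le
  have hA : 0 < A.natDegree := by omega
  have h1 : (BB p X A B + X ^ (2 * p) * B ^ (p * p)).natDegree = p * (p * A.natDegree) := by
    rw [natDegree_add_eq_left_of_natDegree_lt, natDegree_BB h]
    rw [natDegree_BB h]
    refine lt_of_le_of_lt natDegree_mul_le ?_
    rw [natDegree_X_pow, natDegree_pow]
    have h2 : p * p * (B.natDegree + 2) ≤ p * p * A.natDegree := Nat.mul_le_mul_left _ h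
    nlinarith
  have h2 := natDegree_HH (p := p) h
  have e1 : HH p A B ≠ 0 := by
    intro h0
    rw [h0, natDegree_zero] at h2
    have : 0 < p * A.natDegree := by positivity
    omega
  have e2 : BB p X A B + X ^ (2 * p) * B ^ (p * p) ≠ 0 := by
    intro h0
    rw [h0, natDegree_zero] at h1
    have : 0 < p * (p * A.natDegree) := by positivity
    omega
  unfold FF
  rw [natDegree_mul e1 e2, h1, h2]
  ring

omit [CharP K p] in
theorem natDegree_GG {A B : K[X]} (hB : B ≠ 0) (h : B.natDegree + 2 ≤ A.natDegree) :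
    GG p X A B ≠ 0 ∧ (GG p X A B).natDegree = 1 + p * B.natDegree + p * (p * A.natDegree) := by
  have hp : 2 ≤ p := (Fact.out : p.Prime).two_le
  have hA : 0 < A.natDegree := by omega
  have h1 := natDegree_BB (p := p) h
  have e2 : BB p X A B ≠ 0 := by
    intro h0
    rw [h0, natDegree_zero] at h1
    have : 0 < p * (p * A.natDegree) := by positivity
    omega
  have e3 : X * B ^ p ≠ 0 := mul_ne_zero X_ne_zero (pow_ne_zero _ hB)
  unfold GG
  refine ⟨mul_ne_zero e3 e2, ?_⟩
  rw [natDegree_mul e3 e2, natDegree_mul X_ne_zero (pow_ne_zero _ hB), h1, natDegree_X,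
    natDegree_pow]

/-- the degrees of the next point -/
theorem deg_nxt {P : K[X] × K[X]} (hV : Val P) (hD : Deg P) : Deg (nxt p P) ∧
    (nxt p P).1.natDegree + dig p P = (p * p + p) * P.1.natDegree ∧
    (nxt p P).1.natDegree + p * P.2.natDegree + 1 = (nxt p P).2.natDegree + p * P.1.natDegree := by
  have hp : 2 ≤ p := (Fact.out : p.Prime).two_le
  obtain ⟨-, h0, h1, h2⟩ := val_nxt (p := p) hV
  obtain ⟨hA, hB, h⟩ := hD
  have h3 := natDegree_FF (p := p) h
  obtain ⟨h4, h5⟩ := natDegree_GG (p := p) hB h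
  have hA0 : 0 < P.1.natDegree := by omega
  have n1 : (nxt p P).1 ≠ 0 := by
    intro e
    rw [e, mul_zero] at h1
    rw [← h1, natDegree_zero] at h3
    have : 0 < (p * p + p) * P.1.natDegree := by positivity
    omega
  have n2 : (nxt p P).2 ≠ 0 := by
    intro e
    rw [e, mul_zero] at h2
    exact h4 h2.symm
  have hX : (X : K[X]) ^ dig p P ≠ 0 := pow_ne_zero _ X_ne_zero
  rw [← h1, natDegree_mul hX n1, natDegree_X_pow] at h3
  rw [← h2, natDegree_mul hX n2, natDegree_X_pow] at h5
  have h6 : (p * p + p) * P.1.natDegree = p * (p * P.1.natDegree) + p * P.1.natDegree := by ring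
  have h7 : p * P.2.natDegree + 2 * p ≤ p * P.1.natDegree := by nlinarith
  refine ⟨⟨n1, n2, ?_⟩, ?_, ?_⟩
  · omega
  · omega
  · omega

/-- the coordinates of the points of the orbit are coprime -/
theorem coprime_nxt {P : K[X] × K[X]} (hV : Val P) (hD : Deg P) (hc : IsCoprime P.1 P.2) :
    IsCoprime (nxt p P).1 (nxt p P).2 := by
  obtain ⟨hV', h0, h1, h2⟩ := val_nxt (p := p) hV
  obtain ⟨hD', -⟩ := deg_nxt (p := p) hV hD
  refine isCoprime_of_irreducible_dvd (fun h => hD'.1 h.1) fun π hπ e1 e2 => ?_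
  have : Fact (Irreducible π) := ⟨hπ⟩
  have hX : ¬ π ∣ (X : K[X]) := by
    intro h
    have h3 : X ∣ π := (hπ.associated_of_dvd irreducible_X h).symm.dvd
    have h4 := h3.trans e1
    have h5 := h3.trans e2
    rw [X_dvd_iff, coeff_zero_eq_eval_zero] at h4 h5
    rcases hV' with h6 | h6
    · rw [h5] at h6
      exact zero_ne_one h6
    · exact h6.2 h4
  haveI : CharP (AdjoinRoot π) p := charP_of_injective_algebraMap
    (algebraMap K (AdjoinRoot π)).injective p
  have e3 : AdjoinRoot.mk π (FF p X P.1 P.2) = 0 := by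
    rw [← h1, AdjoinRoot.mk_eq_zero]
    exact e1.mul_left _
  have e4 : AdjoinRoot.mk π (GG p X P.1 P.2) = 0 := by
    rw [← h2, AdjoinRoot.mk_eq_zero]
    exact e2.mul_left _
  rw [map_FF] at e3
  rw [map_GG] at e4
  have hX0 : AdjoinRoot.mk π (X : K[X]) ≠ 0 := by
    rwa [ne_eq, AdjoinRoot.mk_eq_zero]
  obtain ⟨a, b⟩ := no_common_zero hX0 e3 e4
  rw [AdjoinRoot.mk_eq_zero] at a b
  exact hπ.not_isUnit (hc.isUnit_of_dvd' a b)

/-- The points which are considered: `S = (A, B)`, coprime, `deg A ≥ deg B + 2`, and `B(0) = 1`, or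
`B(0) = 0` and `A(0) ≠ 0`. -/
structure Good (S : K[X] × K[X]) : Prop where
  val : Val S
  deg : Deg S
  cop : IsCoprime S.1 S.2

theorem good_orb {S : K[X] × K[X]} (hS : Good S) (n : ℕ) : Good (orb p S n) := by
  induction n with
  | zero => exact hS
  | succ n ih =>
    exact ⟨(val_nxt ih.val).1, (deg_nxt ih.val ih.deg).1, coprime_nxt ih.val ih.deg ih.cop⟩

theorem deg_rec {S : K[X] × K[X]} (hS : Good S) (n : ℕ) :
    (orb p S (n + 1)).1.natDegree + dig p (orb p S n) = (p * p + p) * (orb p S n).1.natDegree :=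
  (deg_nxt (good_orb hS n).val (good_orb hS n).deg).2.1

/-- the difference of the degrees grows -/
theorem diff_lt {S : K[X] × K[X]} (hS : Good S) (n : ℕ) :
    (orb p S n).1.natDegree + (orb p S (n + 1)).2.natDegree <
      (orb p S (n + 1)).1.natDegree + (orb p S n).2.natDegree := by
  have hp : 2 ≤ p := (Fact.out : p.Prime).two_le
  have hg := good_orb (p := p) hS n
  have h := (deg_nxt (p := p) hg.val hg.deg).2.2
  have h1 := hg.deg.2.2
  change (orb p S (n + 1)).1.natDegree + p * (orb p S n).2.natDegree + 1 =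
    (orb p S (n + 1)).2.natDegree + p * (orb p S n).1.natDegree at h
  obtain ⟨k, hk⟩ := Nat.exists_eq_add_of_le h1
  rw [hk] at h ⊢
  nlinarith

theorem diff_lt' {S : K[X] × K[X]} (hS : Good S) {m n : ℕ} (hmn : m < n) :
    (orb p S m).1.natDegree + (orb p S n).2.natDegree <
      (orb p S n).1.natDegree + (orb p S m).2.natDegree := by
  induction n, hmn using Nat.le_induction with
  | base => exact diff_lt hS m
  | succ n _ ih =>
    have := diff_lt (p := p) hS n
    omega

end Pool.Agent.Lib.MP_2ab887_nt.P
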