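import Mathlib

/-!
# Irrational canonical heights in characteristic `p` (MP_2ab887_nt): expansions in base `b`

A rational limit of `α n / b ^ n`, `α (n + 1) = b α n - e n`, forces a repeating tail of `e`.
-/

set_option autoImplicit false

open Filter Topology

namespace Pool.Agent.Lib.MP_2ab887_nt.P

/-- a sequence which is multiplied by `b` at least cannot be positive if it is `o(b^n)` -/
theorem no_growth {b : ℕ} (hb : 2 ≤ b) {σ : ℕ → ℝ} (hrec : ∀ n, 0 < σ n → b * σ n ≤ σ (n + 1))
    (hlim : Tendsto (fun n : ℕ => σ n / (b : ℝ) ^ n) atTop (𝓝 0)) (n : ℕ) : σ n ≤ 0 := by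
  by_contra hcon
  push Not at hcon
  have hb0 : (0 : ℝ) < b := by positivity
  have hgrow : ∀ k, (b : ℝ) ^ k * σ n ≤ σ (n + k) ∧ 0 < σ (n + k) := by
    intro k
    induction k with
    | zero => simpa using hcon
    | succ k ih =>
      have h1 := hrec (n + k) ih.2
      rw [← add_assoc, pow_succ]
      constructor
      · calc (b : ℝ) ^ k * b * σ n = b * ((b : ℝ) ^ k * σ n) := by ring
          _ ≤ b * σ (n + k) := by gcongr; exact ih.1
          _ ≤ σ (n + k + 1) := h1
      · exact lt_of_lt_of_le (mul_pos hb0 ih.2) h1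
  have hle : ∀ k, σ n / (b : ℝ) ^ n ≤ σ (n + k) / (b : ℝ) ^ (n + k) := by
    intro k
    have h4 : (0 : ℝ) < (b : ℝ) ^ (n + k) := by positivity
    have h5 : (0 : ℝ) < (b : ℝ) ^ n := by positivity
    rw [div_le_div_iff₀ h5 h4, pow_add]
    have := (hgrow k).1
    nlinarith
  have hlim2 : Tendsto (fun k : ℕ => σ (n + k) / (b : ℝ) ^ (n + k)) atTop (𝓝 0) := by
    have := hlim.comp (tendsto_add_atTop_nat n)
    refine this.congr ?_
    intro k
    simp [Function.comp, add_comm]
  have h0 : σ n / (b : ℝ) ^ n ≤ 0 := ge_of_tendsto' hlim2 hle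
  have : 0 < σ n / (b : ℝ) ^ n := div_pos hcon (by positivity)
  linarith

theorem tail_repeats {b : ℕ} {α e : ℕ → ℕ} (hrec : ∀ n, α (n + 1) + e n = b * α n)
    (he : ∀ n, 1 ≤ e n ∧ e n + 2 ≤ b) {q : ℚ}
    (hlim : Tendsto (fun n : ℕ => (α n : ℝ) / (b : ℝ) ^ n) atTop (𝓝 (q : ℝ))) :
    ∃ m n : ℕ, m < n ∧ ∀ i, e (m + i) = e (n + i) := by
  have hb : 2 ≤ b := by have := (he 0).2; omega
  have hb0 : (0 : ℝ) < b := by positivity
  obtain ⟨τ, hτ⟩ : ∃ τ : ℕ → ℝ, τ = fun n => (α n : ℝ) - (b : ℝ) ^ n * q := ⟨_, rfl⟩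
  have hτrec : ∀ n, τ (n + 1) = b * τ n - e n := by
    intro n
    have h1 : ((α (n + 1) : ℝ)) + e n = b * α n := by exact_mod_cast hrec n
    simp only [hτ, pow_succ]
    linarith
  have he1 : ∀ n, (1 : ℝ) ≤ e n := fun n => by exact_mod_cast (he n).1
  have he2 : ∀ n, (e n : ℝ) + 2 ≤ b := fun n => by exact_mod_cast (he n).2
  have hτlim : Tendsto (fun n : ℕ => τ n / (b : ℝ) ^ n) atTop (𝓝 0) := by
    have : (fun n : ℕ => τ n / (b : ℝ) ^ n) = fun n : ℕ => (α n : ℝ) / (b : ℝ) ^ n - q := by
      funext n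
      simp only [hτ]
      field_simp
    rw [this]
    simpa using hlim.sub_const (q : ℝ)
  have hone : Tendsto (fun n : ℕ => 1 / (b : ℝ) ^ n) atTop (𝓝 0) := by
    have h := tendsto_pow_atTop_nhds_zero_of_lt_one (r := 1 / (b : ℝ)) (by positivity)
      (by rw [div_lt_one hb0]; exact_mod_cast (by omega : 1 < b))
    refine h.congr fun n => ?_
    rw [div_pow, one_pow]
  -- the tails are between 0 and 1
  have hup : ∀ n, τ n ≤ 1 := by
    intro n
    have h := no_growth hb (σ := fun n => τ n - 1) (fun n _ => by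
      beta_reduce
      rw [hτrec n]
      have := he2 n
      linarith) (by
        have h := hτlim.sub hone
        rw [sub_zero] at h
        refine h.congr fun n => ?_
        rw [sub_div]) n
    beta_reduce at h
    linarith
  have hlow : ∀ n, 0 ≤ τ n := by
    intro n
    have h := no_growth hb (σ := fun n => -τ n) (fun n _ => by
      beta_reduce
      rw [hτrec n]
      have := he1 n
      linarith) (by
        have h := hτlim.neg
        rw [neg_zero] at h
        refine h.congr fun n => ?_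
        rw [neg_div]) n
    beta_reduce at h
    linarith
  have hlow' : ∀ n, 0 < τ n := by
    intro n
    have h1 := hτrec n
    have h2 := hlow (n + 1)
    have h3 := he1 n
    by_contra hcon
    push Not at hcon
    have : (b : ℝ) * τ n ≤ 0 := mul_nonpos_of_nonneg_of_nonpos hb0.le hcon
    linarith
  have hup' : ∀ n, τ n < 1 := by
    intro n
    have h1 := hτrec n
    have h2 := hup (n + 1)
    have h3 := he2 n
    by_contra hcon
    push Not at hcon
    have : (b : ℝ) * 1 ≤ b * τ n := mul_le_mul_of_nonneg_left hcon hb0.le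
    linarith
  -- the digit is determined by the tail
  have hdet : ∀ m n, τ m = τ n → e m = e n := by
    intro m n hmn
    have h1 := hτrec m
    have h2 := hτrec n
    rw [hmn] at h1
    have h3 := hup' (m + 1)
    have h4 := hup' (n + 1)
    have h5 := hlow' (m + 1)
    have h6 := hlow' (n + 1)
    have h7 : (e m : ℝ) < e n + 1 := by linarith
    have h8 : (e n : ℝ) < e m + 1 := by linarith
    have h9 : e m < e n + 1 := by exact_mod_cast h7
    have h10 : e n < e m + 1 := by exact_mod_cast h8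
    omega
  -- the tails take finitely many values
  have hfin : ∀ n, ∃ z : ℤ, (τ n * q.den = z) ∧ 0 ≤ z ∧ z ≤ q.den := by
    intro n
    have hq : (q : ℝ) * q.den = q.num := by
      have := Rat.mul_den_eq_num q
      exact_mod_cast congrArg (fun x : ℚ => (x : ℝ)) this
    have hz : τ n * q.den = (((α n : ℤ) * q.den - (b : ℤ) ^ n * q.num : ℤ) : ℝ) := by
      push_cast
      simp only [hτ]
      rw [sub_mul, mul_assoc, hq]
    refine ⟨_, hz, ?_, ?_⟩
    · have h1 := hlow n
      have h2 : (0 : ℝ) ≤ q.den := by positivity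
      have : (0 : ℝ) ≤ τ n * q.den := mul_nonneg h1 h2
      rw [hz] at this
      exact_mod_cast this
    · have h1 := hup n
      have h2 : (0 : ℝ) ≤ q.den := by positivity
      have : τ n * q.den ≤ q.den := by nlinarith
      rw [hz] at this
      exact_mod_cast this
  choose z hz hz0 hz1 using hfin
  have hpig : ∃ m n, m < n ∧ z m = z n := by
    have hmaps : Set.MapsTo z Set.univ (Set.Icc (0 : ℤ) q.den) := fun n _ => ⟨hz0 n, hz1 n⟩
    obtain ⟨m, -, n, -, hmn, h⟩ :=
      Set.infinite_univ.exists_lt_map_eq_of_mapsTo hmaps (Set.finite_Icc _ _)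
    exact ⟨m, n, hmn, h⟩
  obtain ⟨m, n, hmn, hzz⟩ := hpig
  refine ⟨m, n, hmn, ?_⟩
  have hden : (0 : ℝ) < q.den := by exact_mod_cast q.pos
  have h0 : τ m = τ n := by
    have h1 := hz m
    have h2 := hz n
    rw [hzz, ← h2] at h1
    exact mul_right_cancel₀ hden.ne' h1
  have hall : ∀ i, τ (m + i) = τ (n + i) := by
    intro i
    induction i with
    | zero => exact h0
    | succ i ih =>
      have h1 := hτrec (m + i)
      have h2 := hτrec (n + i)
      rw [hdet _ _ ih, ih] at h1
      rw [← add_assoc, ← add_assoc, h1, h2]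
  exact fun i => hdet _ _ (hall i)

/-- the limit exists -/
theorem limit_exists {b : ℕ} (hb : 2 ≤ b) {α e : ℕ → ℕ} (hrec : ∀ n, α (n + 1) + e n = b * α n) :
    ∃ h : ℝ, Tendsto (fun n : ℕ => (α n : ℝ) / (b : ℝ) ^ n) atTop (𝓝 h) := by
  have hb0 : (0 : ℝ) < b := by positivity
  have hanti : Antitone (fun n : ℕ => (α n : ℝ) / (b : ℝ) ^ n) := by
    refine antitone_nat_of_succ_le fun n => ?_
    have h1 : ((α (n + 1) : ℝ)) + e n = b * α n := by exact_mod_cast hrec n
    have h2 : (0 : ℝ) ≤ e n := Nat.cast_nonneg _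
    rw [div_le_div_iff₀ (by positivity) (by positivity), pow_succ]
    have h3 : (0 : ℝ) < (b : ℝ) ^ n := by positivity
    nlinarith
  exact ⟨_, tendsto_atTop_ciInf hanti ⟨0, by rintro _ ⟨n, rfl⟩; positivity⟩⟩

end Pool.Agent.Lib.MP_2ab887_nt.P
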