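import Pool.Agent.Lib.MP_2ab887_nt.P.Deg
import Pool.Agent.Lib.MP_2ab887_nt.P.Dig

/-!
# Irrational canonical heights in characteristic `p` (MP_2ab887_nt): the criterion
-/

set_option autoImplicit false

open Polynomial Filter Topology

namespace Pool.Agent.Lib.MP_2ab887_nt.P

variable {K : Type*} [Field K] {p : ℕ} [Fact p.Prime] [CharP K p]

/-- two orbits with the same residues are equal -/
theorem cr_eq_zero {P Q : ℕ → K[X] × K[X]} (hP : ∀ n, P (n + 1) = nxt p (P n))
    (hQ : ∀ n, Q (n + 1) = nxt p (Q n))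
    (h : ∀ n, (P n).2.eval 0 = 1 ∧ (Q n).2.eval 0 = 1 ∧
      ∃ j < p, (P n).1.eval 0 = (j : K) ∧ (Q n).1.eval 0 = (j : K)) : cr (P 0) (Q 0) = 0 := by
  have key : ∀ k n : ℕ, X ^ k ∣ cr (P n) (Q n) := by
    intro k
    induction k with
    | zero => intro n; exact one_dvd _
    | succ k ih =>
      intro n
      obtain ⟨h1, h2, j, hj, h3, h4⟩ := h n
      obtain ⟨R, hR, he⟩ := cr_step h1 h2 hj h3 h4
      rw [← hP, ← hQ] at he
      have h5 : X ^ (k + 1) ∣ cr (P n) (Q n) * R := by
        rw [← he, pow_succ']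
        exact mul_dvd_mul_left _ (ih (n + 1))
      have h6 : IsCoprime (X ^ (k + 1) : K[X]) R := by
        refine IsCoprime.pow_left ?_
        refine (irreducible_X.coprime_iff_not_dvd).2 ?_
        rw [X_dvd_iff, coeff_zero_eq_eval_zero]
        exact hR
      exact h6.dvd_of_dvd_mul_right h5
  by_contra hne
  have h1 := natDegree_le_of_dvd (key ((cr (P 0) (Q 0)).natDegree + 1) 0) hne
  rw [natDegree_X_pow] at h1
  omega

/-- the state of a point with residue in the prime field -/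
def TI (p : ℕ) (P : K[X] × K[X]) : Prop := P.2.eval 0 = 1 ∧ ∃ j < p, P.1.eval 0 = (j : K)

theorem irrational_of_TI {g : K[X] × K[X]} (hg : Good g) (hT : ∀ n, TI p (orb p g n)) {h : ℝ}
    (hlim : Tendsto (fun n : ℕ => ((orb p g n).1.natDegree : ℝ) / ((p * p + p : ℕ) : ℝ) ^ n)
      atTop (𝓝 h)) : Irrational h := by
  have hp : 2 ≤ p := (Fact.out : p.Prime).two_le
  rintro ⟨q, rfl⟩
  have he : ∀ n, 1 ≤ dig p (orb p g n) ∧ dig p (orb p g n) + 2 ≤ p * p + p := by
    intro n
    obtain ⟨h1, j, hj, h2⟩ := hT n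
    rw [dig_of h1 hj h2]
    constructor
    · omega
    · nlinarith
  obtain ⟨m, n, hmn, hrep⟩ := tail_repeats (deg_rec (p := p) hg) he hlim
  have hcr : cr (orb p g m) (orb p g n) = 0 := by
    refine cr_eq_zero (p := p) (P := fun i => orb p g (m + i)) (Q := fun i => orb p g (n + i))
      (fun i => rfl) (fun i => rfl) (fun i => ?_)
    obtain ⟨h1, j, hj, h2⟩ := hT (m + i)
    obtain ⟨h3, j', hj', h4⟩ := hT (n + i)
    have h5 := hrep i
    rw [dig_of h1 hj h2, dig_of h3 hj' h4] at h5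
    have h6 : j' = j := by omega
    subst h6
    exact ⟨h1, h3, j', hj, h2, h4⟩
  have hd := diff_lt' (p := p) hg hmn
  have hDm := (good_orb (p := p) hg m).deg
  have hDn := (good_orb (p := p) hg n).deg
  have h7 : (orb p g m).1 * (orb p g n).2 = (orb p g n).1 * (orb p g m).2 := by
    unfold cr at hcr
    exact sub_eq_zero.1 hcr
  have h8 := congrArg natDegree h7
  rw [natDegree_mul hDm.1 hDn.2.1, natDegree_mul hDn.1 hDm.2.1] at h8
  omega

theorem rational_of_not_TI {g : K[X] × K[X]} (hg : Good g) {N : ℕ}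
    (hT : ¬ TI p (orb p g N)) {h : ℝ}
    (hlim : Tendsto (fun n : ℕ => ((orb p g n).1.natDegree : ℝ) / ((p * p + p : ℕ) : ℝ) ^ n)
      atTop (𝓝 h)) : ¬ Irrational h := by
  have hp : 2 ≤ p := (Fact.out : p.Prime).two_le
  have hV := (good_orb (p := p) hg N).val
  have h0 : dig p (orb p g N) = 0 ∧ (orb p g (N + 1)).2.eval 0 = 0 ∧
      (orb p g (N + 1)).1.eval 0 ≠ 0 := by
    rcases hV with hB | ⟨hB, hA⟩
    · have hj : ¬ ∃ j < p, (orb p g N).1.eval 0 = (j : K) := fun hj => hT ⟨hB, hj⟩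
      exact ⟨dig_not hj, typeII hB hj⟩
    · exact ⟨dig_zero hB, typeIII hB hA⟩
  have h1 : ∀ k, (orb p g (N + 1 + k)).2.eval 0 = 0 ∧ (orb p g (N + 1 + k)).1.eval 0 ≠ 0 := by
    intro k
    induction k with
    | zero => exact h0.2
    | succ k ih => exact typeIII ih.1 ih.2
  have h2 : ∀ k, dig p (orb p g (N + k)) = 0 := by
    intro k
    rcases k with _ | k
    · exact h0.1
    · have := h1 k
      rw [show N + 1 + k = N + (k + 1) by ring] at this
      exact dig_zero this.1
  have h3 : ∀ k, (orb p g (N + k)).1.natDegree = (p * p + p) ^ k * (orb p g N).1.natDegree := by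
    intro k
    induction k with
    | zero => simp
    | succ k ih =>
      have h4 := deg_rec (p := p) hg (N + k)
      rw [h2 k, add_zero, ih] at h4
      rw [← add_assoc, h4, pow_succ]
      ring
  have hb : (0 : ℝ) < ((p * p + p : ℕ) : ℝ) := by
    have : 0 < p * p + p := by positivity
    exact_mod_cast this
  have h4 : Tendsto (fun k : ℕ => ((orb p g (k + N)).1.natDegree : ℝ) /
      ((p * p + p : ℕ) : ℝ) ^ (k + N)) atTop
      (𝓝 (((orb p g N).1.natDegree : ℝ) / ((p * p + p : ℕ) : ℝ) ^ N)) := by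
    refine Tendsto.congr (fun k => ?_) tendsto_const_nhds
    rw [add_comm k N, h3 k, Nat.cast_mul, Nat.cast_pow, pow_add]
    field_simp
  have h5 := tendsto_nhds_unique ((tendsto_add_atTop_iff_nat N).2 hlim) h4
  rintro hirr
  refine hirr ⟨((orb p g N).1.natDegree : ℚ) / ((p * p + p : ℕ) : ℚ) ^ N, ?_⟩
  rw [h5]
  push_cast
  rfl

/-- Frobenius on the coefficients -/
noncomputable def sig (K : Type*) [Field K] (p : ℕ) [Fact p.Prime] [CharP K p] : K[X] →+* K[X] :=
  haveI : ExpChar K p := ExpChar.prime Fact.out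
  mapRingHom (frobenius K p)

theorem sig_X : sig K p X = X := by
  unfold sig
  simp

theorem sig_coeff (g : K[X]) (i : ℕ) : (sig K p g).coeff i = g.coeff i ^ p := by
  haveI : ExpChar K p := ExpChar.prime Fact.out
  unfold sig
  rw [coe_mapRingHom, coeff_map, frobenius_def]

theorem sig_eval (g : K[X]) : (sig K p g).eval 0 = g.eval 0 ^ p := by
  rw [← coeff_zero_eq_eval_zero, ← coeff_zero_eq_eval_zero, sig_coeff]

theorem pow_inj {x y : K} (h : x ^ p = y ^ p) : x = y := by
  haveI : ExpChar K p := ExpChar.prime Fact.out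
  exact frobenius_inj K p h

theorem sig_eq_iff (g : K[X]) : sig K p g = g ↔ ∀ i, g.coeff i ∈ (⊥ : Subfield K) := by
  constructor
  · intro h i
    rw [Subfield.mem_bot_iff_pow_eq_self K p, ← sig_coeff, h]
  · intro h
    ext i
    rw [sig_coeff]
    exact (Subfield.mem_bot_iff_pow_eq_self K p).1 (h i)

theorem dig_sig (P : K[X] × K[X]) : dig p (sig K p P.1, sig K p P.2) = dig p P := by
  by_cases h : P.2.eval 0 = 1 ∧ ∃ j < p, P.1.eval 0 = (j : K)
  · obtain ⟨hB, j, hj, hA⟩ := h
    rw [dig_of hB hj hA, dig_of (P := (sig K p P.1, sig K p P.2)) _ hj]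
    · change (sig K p P.1).eval 0 = _
      rw [sig_eval, hA, natCast_pow_char]
    · change (sig K p P.2).eval 0 = _
      rw [sig_eval, hB, one_pow]
  · have h' : ¬ ((sig K p P.2).eval 0 = 1 ∧ ∃ j < p, (sig K p P.1).eval 0 = (j : K)) := by
      rintro ⟨h1, j, hj, h2⟩
      refine h ⟨?_, j, hj, ?_⟩
      · refine pow_inj (p := p) ?_
        rw [← sig_eval, h1, one_pow]
      · refine pow_inj (p := p) ?_
        rw [← sig_eval, h2, natCast_pow_char]
    unfold dig
    rw [dif_neg h', dif_neg h]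

theorem nxt_sig {P : K[X] × K[X]} (hV : Val P) :
    nxt p (sig K p P.1, sig K p P.2) = (sig K p (nxt p P).1, sig K p (nxt p P).2) := by
  obtain ⟨-, -, h1, h2⟩ := val_nxt (p := p) hV
  have hX : (X : K[X]) ^ dig p P ≠ 0 := pow_ne_zero _ X_ne_zero
  have e1 : FF p X (sig K p P.1) (sig K p P.2) = X ^ dig p P * sig K p (nxt p P).1 := by
    have := congrArg (sig K p) h1
    rw [map_mul, map_pow, map_FF, sig_X] at this
    exact this.symm
  have e2 : GG p X (sig K p P.1) (sig K p P.2) = X ^ dig p P * sig K p (nxt p P).2 := by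
    have := congrArg (sig K p) h2
    rw [map_mul, map_pow, map_GG, sig_X] at this
    exact this.symm
  change (FF p X (sig K p P.1) (sig K p P.2) / X ^ dig p (sig K p P.1, sig K p P.2),
    GG p X (sig K p P.1) (sig K p P.2) / X ^ dig p (sig K p P.1, sig K p P.2)) = _
  rw [dig_sig, e1, e2, mul_div_cancel_left₀ _ hX, mul_div_cancel_left₀ _ hX]

theorem orb_sig {S : K[X] × K[X]} (hS : Good S) (n : ℕ) :
    orb p (sig K p S.1, sig K p S.2) n = (sig K p (orb p S n).1, sig K p (orb p S n).2) := by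
  induction n with
  | zero => rfl
  | succ n ih =>
    change nxt p (orb p (sig K p S.1, sig K p S.2) n) = _
    rw [ih, nxt_sig (good_orb (p := p) hS n).val]
    rfl

theorem TI_of_sig {S : K[X] × K[X]} (hS : Good S) (h0 : S.2.eval 0 = 1) (h : sig K p S.1 = S.1)
    (h' : sig K p S.2 = S.2) (n : ℕ) : TI p (orb p S n) := by
  have h1 : ∀ n, ∃ j < p, (orb p S n).1.eval 0 = (j : K) := by
    intro n
    refine prime_field ?_
    rw [← sig_eval]
    have h2 := orb_sig (p := p) hS n
    rw [h, h'] at h2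
    have h3 := congrArg (fun P : K[X] × K[X] => P.1) h2
    beta_reduce at h3
    exact congrArg (eval 0) h3.symm
  have h2 : (orb p S n).2.eval 0 = 1 := by
    induction n with
    | zero => exact h0
    | succ n ih =>
      obtain ⟨j, hj, hA⟩ := h1 n
      exact (typeI ih hj hA).1
  exact ⟨h2, h1 n⟩

/-- two proportional pairs, the first coprime, the second with smaller or equal denominator, with
denominators equal to `1` at `0` -/
theorem eq_of_cross {A B A' B' : K[X]} (hc : IsCoprime A B) (hB : B.eval 0 = 1)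
    (hB' : B'.eval 0 = 1) (hd : B'.natDegree ≤ B.natDegree) (h : A * B' = A' * B) :
    A' = A ∧ B' = B := by
  have h1 : B ∣ B' := hc.symm.dvd_of_dvd_mul_left (h ▸ dvd_mul_left B A')
  obtain ⟨u, hu⟩ := h1
  have hB0 : B ≠ 0 := by
    rintro rfl
    rw [eval_zero] at hB
    exact zero_ne_one hB
  have hB'0 : B' ≠ 0 := by
    rintro rfl
    rw [eval_zero] at hB'
    exact zero_ne_one hB'
  have hu0 : u ≠ 0 := by
    rintro rfl
    rw [mul_zero] at hu
    exact hB'0 hu
  have h2 := natDegree_mul hB0 hu0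
  rw [← hu] at h2
  have h3 : u = C (u.coeff 0) := eq_C_of_natDegree_eq_zero (by omega)
  have h4 : B'.eval 0 = B.eval 0 * u.eval 0 := by rw [hu, eval_mul]
  rw [hB, hB', one_mul, h3, eval_C] at h4
  have h5 : B' = B := by
    rw [hu, h3, ← h4, C_1, mul_one]
  refine ⟨?_, h5⟩
  rw [h5] at h
  exact (mul_right_cancel₀ hB0 h).symm

theorem sig_of_TI {S : K[X] × K[X]} (hS : Good S) (hT : ∀ n, TI p (orb p S n)) :
    S.2.eval 0 = 1 ∧ sig K p S.1 = S.1 ∧ sig K p S.2 = S.2 := by
  have h := cr_eq_zero (p := p) (P := fun i => orb p S i)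
    (Q := fun i => orb p (sig K p S.1, sig K p S.2) i)
    (fun i => rfl) (fun i => rfl) (fun n => by
      obtain ⟨h1, j, hj, h2⟩ := hT n
      beta_reduce
      rw [orb_sig hS n]
      refine ⟨h1, ?_, j, hj, h2, ?_⟩
      · change (sig K p (orb p S n).2).eval 0 = 1
        rw [sig_eval, h1, one_pow]
      · change (sig K p (orb p S n).1).eval 0 = _
        rw [sig_eval, h2, natCast_pow_char])
  have h0 : S.2.eval 0 = 1 := (hT 0).1
  change S.1 * sig K p S.2 - sig K p S.1 * S.2 = 0 at h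
  have h1 : (sig K p S.2).natDegree ≤ S.2.natDegree := by
    refine natDegree_le_iff_coeff_eq_zero.2 fun N hN => ?_
    rw [sig_coeff, coeff_eq_zero_of_natDegree_lt hN, zero_pow (Fact.out : p.Prime).ne_zero]
  have h2 := eq_of_cross (A' := sig K p S.1) (B' := sig K p S.2) hS.cop h0
    (by rw [sig_eval, h0, one_pow]) h1 (sub_eq_zero.1 h)
  exact ⟨h0, h2.1, h2.2⟩

/-- The criterion in terms of coprime polynomials. -/
theorem criterion {S : K[X] × K[X]} (hS : Good S) : ∃ h : ℝ,
    Tendsto (fun n : ℕ => ((orb p S n).1.natDegree : ℝ) / ((p * p + p : ℕ) : ℝ) ^ n)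
      atTop (𝓝 h) ∧
    (Irrational h ↔ S.2.eval 0 = 1 ∧ sig K p S.1 = S.1 ∧ sig K p S.2 = S.2) := by
  have hp : 2 ≤ p := (Fact.out : p.Prime).two_le
  obtain ⟨h, hlim⟩ := limit_exists (b := p * p + p) (α := fun n => (orb p S n).1.natDegree)
    (e := fun n => dig p (orb p S n)) (by nlinarith) (deg_rec (p := p) hS)
  refine ⟨h, hlim, ?_⟩
  constructor
  · intro hirr
    refine sig_of_TI hS fun n => ?_
    by_contra hn
    exact rational_of_not_TI hS hn hlim hirr
  · rintro ⟨h0, h1, h2⟩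
    exact irrational_of_TI hS (TI_of_sig hS h0 h1 h2) hlim

end Pool.Agent.Lib.MP_2ab887_nt.P
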