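import Pool.Agent.Lib.MP_2ab887_nt.P.Alg

/-!
# Irrational canonical heights in characteristic `p` (MP_2ab887_nt): the orbit of a point
-/

set_option autoImplicit false

open Polynomial

namespace Pool.Agent.Lib.MP_2ab887_nt.P

section

variable {K : Type*} [Field K] (p : ℕ)

open Classical in
/-- the power of `t` which is removed: `1 + j` if the residue of the point is `j ∈ {0, .., p-1}` -/
noncomputable def dig (P : K[X] × K[X]) : ℕ :=
  if h : P.2.eval 0 = 1 ∧ ∃ j < p, P.1.eval 0 = (j : K) then 1 + h.2.choose else 0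

/-- the next point in reduced coordinates -/
noncomputable def nxt (P : K[X] × K[X]) : K[X] × K[X] :=
  (FF p X P.1 P.2 / X ^ dig p P, GG p X P.1 P.2 / X ^ dig p P)

/-- the orbit of the point `S` -/
noncomputable def orb (S : K[X] × K[X]) : ℕ → K[X] × K[X]
  | 0 => S
  | n + 1 => nxt p (orb S n)

/-- cross difference -/
noncomputable def cr (P Q : K[X] × K[X]) : K[X] := P.1 * Q.2 - Q.1 * P.2

end

section Eval

variable {K : Type*} [Field K] {p : ℕ} [Fact p.Prime] [CharP K p]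

theorem BB_zero (x y : K) : BB p 0 x y = HH p x y ^ p + LL p 0 x y ^ p * y ^ p := by
  have hp : 2 ≤ p := (Fact.out : p.Prime).two_le
  unfold BB
  rw [Finset.sum_eq_single 0]
  · rw [pow_zero, one_mul]
  · intro a _ ha
    rw [zero_pow ha]
    ring
  · intro h
    exact absurd (Finset.mem_range.2 (by omega)) h

theorem FF_zero_one {x : K} (h : ¬ ∃ j < p, x = (j : K)) : FF p 0 x 1 ≠ 0 := by
  have hp : 2 ≤ p := (Fact.out : p.Prime).two_le
  have hx : x ^ p ≠ x := fun e => h (prime_field e)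
  haveI : ExpChar K p := ExpChar.prime Fact.out
  have hpp : x ^ p = x * x ^ (p - 1) := by
    rw [← pow_succ', show p - 1 + 1 = p by omega]
  have h1 : x ^ (p - 1) ≠ 1 := by
    intro e
    rw [e, mul_one] at hpp
    exact hx hpp
  have h2 : x ≠ 1 := by
    rintro rfl
    exact hx (one_pow _)
  have e1 : HH p x 1 = x ^ p - x := by
    unfold HH
    rw [one_pow, mul_one]
  have e2 : BB p 0 x 1 = ((1 - x) * (1 - x ^ (p - 1))) ^ p := by
    rw [BB_zero, e1, one_pow, mul_one, ← add_pow_expChar]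
    congr 1
    unfold LL
    rw [one_pow, Nat.cast_zero, zero_mul, sub_zero, hpp]
    ring
  unfold FF
  rw [e1, e2, zero_pow (by omega), zero_mul, add_zero]
  refine mul_ne_zero (sub_ne_zero.2 hx) (pow_ne_zero _ (mul_ne_zero ?_ ?_))
  · exact sub_ne_zero.2 h2.symm
  · exact sub_ne_zero.2 h1.symm

theorem FF_zero_zero {x : K} (h : x ≠ 0) : FF p 0 x 0 ≠ 0 := by
  have hp : 2 ≤ p := (Fact.out : p.Prime).two_le
  have e1 : HH p x 0 = x ^ p := by
    unfold HH
    rw [zero_pow (by omega), mul_zero, sub_zero]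
  have e2 : BB p 0 x 0 = (x ^ p) ^ p := by
    rw [BB_zero, e1, zero_pow (show p ≠ 0 by omega), mul_zero, add_zero]
  unfold FF
  rw [e1, e2, zero_pow (by omega), zero_mul, add_zero]
  exact mul_ne_zero (pow_ne_zero _ h) (pow_ne_zero _ (pow_ne_zero _ h))

theorem eval_FF (A B : K[X]) : (FF p X A B).eval 0 = FF p 0 (A.eval 0) (B.eval 0) := by
  have h := map_FF (evalRingHom (0 : K)) p X A B
  simpa using h

theorem eval_GG (A B : K[X]) : (GG p X A B).eval 0 = 0 := by
  unfold GG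
  simp

theorem cast_inj {i j : ℕ} (hi : i < p) (hj : j < p) (h : (i : K) = (j : K)) : i = j := by
  have h1 : ((i : ZMod p)) = (j : ZMod p) := by
    apply (ZMod.castHom (dvd_refl p) K).injective
    simpa using h
  rw [ZMod.natCast_eq_natCast_iff', Nat.mod_eq_of_lt hi, Nat.mod_eq_of_lt hj] at h1
  exact h1

theorem dig_of {P : K[X] × K[X]} (hB : P.2.eval 0 = 1) {j : ℕ} (hj : j < p)
    (hA : P.1.eval 0 = (j : K)) : dig p P = 1 + j := by
  have h : P.2.eval 0 = 1 ∧ ∃ j < p, P.1.eval 0 = (j : K) := ⟨hB, j, hj, hA⟩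
  unfold dig
  rw [dif_pos h]
  have h1 := h.2.choose_spec
  rw [cast_inj h1.1 hj (h1.2.symm.trans hA)]

omit [Fact p.Prime] [CharP K p] in
theorem dig_not {P : K[X] × K[X]} (h : ¬ ∃ j < p, P.1.eval 0 = (j : K)) : dig p P = 0 := by
  unfold dig
  rw [dif_neg]
  exact fun h1 => h h1.2

omit [Fact p.Prime] [CharP K p] in
theorem dig_zero {P : K[X] × K[X]} (h : P.2.eval 0 = 0) : dig p P = 0 := by
  unfold dig
  rw [dif_neg]
  intro h1
  rw [h] at h1
  exact zero_ne_one h1.1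

/-- the local form at a point with residue in the prime field -/
theorem local_form {A B : K[X]} (hB : B.eval 0 = 1) {j : ℕ} (hj : j < p)
    (hA : A.eval 0 = (j : K)) :
    ∃ U G : K[X], BB p X A B = X ^ j * U ∧ U.eval 0 = 1 ∧ HH p A B = X * G := by
  have hp : 2 ≤ p := (Fact.out : p.Prime).two_le
  have hH : X ∣ HH p A B := by
    rw [X_dvd_iff, coeff_zero_eq_eval_zero]
    have h := map_HH (evalRingHom (0 : K)) p A B
    rw [coe_evalRingHom] at h
    rw [h, hB, hA]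
    have := HH_nat (p := p) j (1 : K)
    rwa [mul_one] at this
  have hL : ∀ a ∈ (Finset.range p).erase j, X ^ p ∣ X ^ a * LL p a A B ^ p * B ^ p := by
    intro a ha
    have ha' := Finset.mem_erase.1 ha
    have h1 : X ∣ LL p a A B := by
      rw [X_dvd_iff, coeff_zero_eq_eval_zero]
      have h := map_LL (evalRingHom (0 : K)) p a A B
      rw [coe_evalRingHom] at h
      rw [h, hB, hA]
      have := LL_nat_ne (p := p) (Finset.mem_range.1 ha'.2) hj ha'.1 (1 : K)
      rwa [mul_one] at this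
    exact Dvd.dvd.mul_right (Dvd.dvd.mul_left (pow_dvd_pow_of_dvd h1 p) _) _
  obtain ⟨W, hW⟩ : X ^ p ∣ HH p A B ^ p +
      ∑ a ∈ (Finset.range p).erase j, X ^ a * LL p a A B ^ p * B ^ p :=
    dvd_add (pow_dvd_pow_of_dvd hH p) (Finset.dvd_sum hL)
  obtain ⟨G, hG⟩ := hH
  refine ⟨X ^ (p - j) * W + LL p j A B ^ p * B ^ p, G, ?_, ?_, hG⟩
  · have h1 : BB p X A B = HH p A B ^ p +
        ∑ a ∈ (Finset.range p).erase j, X ^ a * LL p a A B ^ p * B ^ p +
        X ^ j * LL p j A B ^ p * B ^ p := by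
      unfold BB
      rw [← Finset.sum_erase_add _ _ (Finset.mem_range.2 hj)]
      ring
    have h2 : (X : K[X]) ^ p = X ^ j * X ^ (p - j) := by
      rw [← pow_add, show j + (p - j) = p by omega]
    rw [h1, hW, h2]
    ring
  · have h3 : (LL p j A B).eval 0 = 1 := by
      have h := map_LL (evalRingHom (0 : K)) p j A B
      rw [coe_evalRingHom] at h
      rw [h, hB, hA]
      have := LL_nat_self (p := p) j (1 : K)
      rwa [mul_one, one_pow] at this
    rw [eval_add, eval_mul, eval_pow, eval_X, zero_pow (by omega), zero_mul, zero_add, eval_mul,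
      eval_pow, eval_pow, h3, hB, one_pow, one_mul]

/-- a point with residue in the prime field -/
theorem typeI {P : K[X] × K[X]} (hB : P.2.eval 0 = 1) {j : ℕ} (hj : j < p)
    (hA : P.1.eval 0 = (j : K)) :
    (nxt p P).2.eval 0 = 1 ∧ X ^ (1 + j) * (nxt p P).1 = FF p X P.1 P.2 ∧
      X ^ (1 + j) * (nxt p P).2 = GG p X P.1 P.2 := by
  obtain ⟨U, G, h1, h2, h3⟩ := local_form hB hj hA
  have hX : (X : K[X]) ^ (1 + j) ≠ 0 := pow_ne_zero _ X_ne_zero
  have hG : GG p X P.1 P.2 = X ^ (1 + j) * (P.2 ^ p * U) := by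
    unfold GG
    rw [h1]
    ring
  have hF : FF p X P.1 P.2 =
      X ^ (1 + j) * (G * (U + X ^ (2 * p - j) * P.2 ^ (p * p))) := by
    have h4 : (X : K[X]) ^ (2 * p) = X ^ j * X ^ (2 * p - j) := by
      rw [← pow_add, show j + (2 * p - j) = 2 * p by omega]
    unfold FF
    rw [h1, h3, h4]
    ring
  have hd := dig_of hB hj hA
  have e1 : (nxt p P).1 = G * (U + X ^ (2 * p - j) * P.2 ^ (p * p)) := by
    change FF p X P.1 P.2 / X ^ dig p P = _
    rw [hd, hF, mul_div_cancel_left₀ _ hX]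
  have e2 : (nxt p P).2 = P.2 ^ p * U := by
    change GG p X P.1 P.2 / X ^ dig p P = _
    rw [hd, hG, mul_div_cancel_left₀ _ hX]
  refine ⟨?_, ?_, ?_⟩
  · rw [e2, eval_mul, eval_pow, hB, h2, one_pow, one_mul]
  · rw [e1, hF]
  · rw [e2, hG]

/-- the points which occur in the orbits -/
def Val (P : K[X] × K[X]) : Prop :=
  P.2.eval 0 = 1 ∨ (P.2.eval 0 = 0 ∧ P.1.eval 0 ≠ 0)

omit [Fact p.Prime] [CharP K p] in
theorem nxt_dig_zero {P : K[X] × K[X]} (h : dig p P = 0) :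
    nxt p P = (FF p X P.1 P.2, GG p X P.1 P.2) := by
  unfold nxt
  rw [h, pow_zero, EuclideanDomain.div_one, EuclideanDomain.div_one]

theorem typeII {P : K[X] × K[X]} (hB : P.2.eval 0 = 1) (h : ¬ ∃ j < p, P.1.eval 0 = (j : K)) :
    (nxt p P).2.eval 0 = 0 ∧ (nxt p P).1.eval 0 ≠ 0 := by
  rw [nxt_dig_zero (dig_not h)]
  refine ⟨eval_GG _ _, ?_⟩
  change (FF p X P.1 P.2).eval 0 ≠ 0
  rw [eval_FF, hB]
  exact FF_zero_one h

theorem typeIII {P : K[X] × K[X]} (hB : P.2.eval 0 = 0) (h : P.1.eval 0 ≠ 0) :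
    (nxt p P).2.eval 0 = 0 ∧ (nxt p P).1.eval 0 ≠ 0 := by
  rw [nxt_dig_zero (dig_zero hB)]
  refine ⟨eval_GG _ _, ?_⟩
  change (FF p X P.1 P.2).eval 0 ≠ 0
  rw [eval_FF, hB]
  exact FF_zero_zero h

theorem val_nxt {P : K[X] × K[X]} (h : Val P) : Val (nxt p P) ∧ dig p P ≤ p ∧
    X ^ dig p P * (nxt p P).1 = FF p X P.1 P.2 ∧ X ^ dig p P * (nxt p P).2 = GG p X P.1 P.2 := by
  have hz : dig p P = 0 → X ^ dig p P * (nxt p P).1 = FF p X P.1 P.2 ∧
      X ^ dig p P * (nxt p P).2 = GG p X P.1 P.2 := by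
    intro h0
    rw [nxt_dig_zero h0, h0, pow_zero, one_mul, one_mul]
    exact ⟨rfl, rfl⟩
  rcases h with hB | ⟨hB, hA⟩
  · by_cases hj : ∃ j < p, P.1.eval 0 = (j : K)
    · obtain ⟨j, hj, hA⟩ := hj
      obtain ⟨h1, h2, h3⟩ := typeI hB hj hA
      have hd := dig_of hB hj hA
      rw [hd]
      exact ⟨Or.inl h1, by omega, h2, h3⟩
    · have h0 := dig_not hj
      exact ⟨Or.inr (typeII hB hj), by omega, hz h0⟩
  · have h0 : dig p P = 0 := dig_zero hB
    exact ⟨Or.inr (typeIII hB hA), by omega, hz h0⟩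

/-- one step of the comparison of two orbits with the same residue -/
theorem cr_step {P Q : K[X] × K[X]} (hP : P.2.eval 0 = 1) (hQ : Q.2.eval 0 = 1) {j : ℕ}
    (hj : j < p) (hPj : P.1.eval 0 = (j : K)) (hQj : Q.1.eval 0 = (j : K)) :
    ∃ R : K[X], R.eval 0 ≠ 0 ∧ X * cr (nxt p P) (nxt p Q) = cr P Q * R := by
  have hp : 2 ≤ p := (Fact.out : p.Prime).two_le
  obtain ⟨U, _, h1, h2, -⟩ := local_form hP hj hPj
  obtain ⟨U', _, h1', h2', -⟩ := local_form hQ hj hQj
  obtain ⟨-, h3, h4⟩ := typeI hP hj hPj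
  obtain ⟨-, h3', h4'⟩ := typeI hQ hj hQj
  obtain ⟨C, hC⟩ := cross (p := p) (X : K[X]) P.1 P.2 Q.1 Q.2
  refine ⟨U * U' * ((P.1 * Q.2 - Q.1 * P.2) ^ (p - 1) - (P.2 * Q.2) ^ (p - 1)) +
    X ^ (2 * p - 2 * j) * C, ?_, ?_⟩
  · rw [eval_add, eval_mul, eval_mul, h2, h2', eval_sub, eval_pow, eval_pow, eval_sub, eval_mul,
      eval_mul, eval_mul, hP, hQ, hPj, hQj, sub_self, zero_pow (by omega), eval_mul, eval_pow,
      eval_X, zero_pow (by omega)]
    simp
  · have hX : (X : K[X]) ^ (1 + 2 * j) ≠ 0 := pow_ne_zero _ X_ne_zero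
    refine mul_left_cancel₀ hX ?_
    have h5 : (X : K[X]) ^ (2 * p) = X ^ (2 * j) * X ^ (2 * p - 2 * j) := by
      rw [← pow_add, show 2 * j + (2 * p - 2 * j) = 2 * p by omega]
    rw [← h3, ← h4, ← h3', ← h4', h1, h1', h5] at hC
    unfold cr
    calc (X : K[X]) ^ (1 + 2 * j) * (X * ((nxt p P).1 * (nxt p Q).2 - (nxt p Q).1 * (nxt p P).2))
        = X ^ (1 + j) * (nxt p P).1 * (X ^ (1 + j) * (nxt p Q).2) -
          X ^ (1 + j) * (nxt p Q).1 * (X ^ (1 + j) * (nxt p P).2) := by ring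
      _ = _ := by
          rw [hC]
          ring

end Eval

end Pool.Agent.Lib.MP_2ab887_nt.P
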